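import Pool.Agent.TH31.NEfin

/-!
# Minimal non-Engel varieties of associative rings are Cross varieties

Outline. For a prime `p` and `q = p ^ k` let `W` be the variety of the rings of characteristic
`p` in which the ideal generated by the elements `x ^ q - x` and the commutators has square zero.
Every subvariety of `W` is a Cross variety. If a variety `V` is not Engel, then one of the
varieties `V ∩ W` is not Engel: otherwise first the rings of `V` in which products of two
commutators vanish are Engel (by finite residue fields of finitely generated commutative rings),
then the prime rings of `V` of characteristic `p` have no zero divisors and are commutative, the
torsion-free rings of `V` are Engel because identities may be scaled by integers, and a quotient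
which is maximal with respect to the survival of all iterated commutators of two elements is
prime, a contradiction. So a minimal non-Engel variety is a subvariety of some `W`.
-/

set_option autoImplicit false

namespace Pool.Agent.Results.MP_a5aec7_al.CrossVariety

open Pool.Agent.H854R3.NE

/-- Every minimal non-Engel variety of associative rings is a Cross variety: it is finitely based,
locally finite, and contains only finitely many critical rings up to isomorphism. -/
theorem result (E : Set (RTerm × RTerm)) (h : MinimalNonEngel E) : IsCross E :=
  Pool.Agent.TH31.NEfin.main h

end Pool.Agent.Results.MP_a5aec7_al.CrossVariety
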